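import Pool.Agent.H14.Ricci

set_option autoImplicit false
set_option synthInstance.maxSize 4096

namespace Pool.Agent.Results.MP_1a9240_co.Counter

open Matrix Pool.Agent.H14.Ricci

abbrev A := Fin 3
abbrev B := A × Fin 20
abbrev C := B × Fin 7
abbrev D := C × Fin 3
abbrev W := Unit ⊕ A ⊕ B ⊕ C ⊕ D

def r : W := Sum.inl ()

def par : W → W
  | Sum.inl _ => r
  | Sum.inr (Sum.inl _) => r
  | Sum.inr (Sum.inr (Sum.inl b)) => Sum.inr (Sum.inl b.1)
  | Sum.inr (Sum.inr (Sum.inr (Sum.inl c))) => Sum.inr (Sum.inr (Sum.inl c.1))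
  | Sum.inr (Sum.inr (Sum.inr (Sum.inr d))) => Sum.inr (Sum.inr (Sum.inr (Sum.inl d.1)))

def lev : W → ℕ
  | Sum.inl _ => 0
  | Sum.inr (Sum.inl _) => 1
  | Sum.inr (Sum.inr (Sum.inl _)) => 2
  | Sum.inr (Sum.inr (Sum.inr (Sum.inl _))) => 3
  | Sum.inr (Sum.inr (Sum.inr (Sum.inr _))) => 4

theorem hl : ∀ x, x ≠ r → lev (par x) + 1 = lev x := by
  rintro (_ | _ | _ | _ | _) h
  · exact absurd rfl h
  all_goals rfl

def ch : ℕ → ℝ
  | 0 => 3
  | 1 => 20
  | 2 => 7
  | 3 => 3
  | _ => 0

theorem fst_count {X Y : Type} [Fintype X] [Fintype Y] [DecidableEq X] (x : X) :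
    ∑ z : X × Y, (if z.1 = x then (1 : ℝ) else 0) = Fintype.card Y := by
  rw [Fintype.sum_prod_type]
  simp [Finset.sum_ite_eq', apply_ite]

theorem hch (x : W) :
    ((Finset.univ.filter (fun z => z ≠ r ∧ par z = x)).card : ℝ) = ch (lev x) := by
  rw [Finset.card_filter]
  push_cast
  simp only [Fintype.sum_sum_type]
  rcases x with (_ | x | x | x | x)
  all_goals simp only [par, r, lev, ch, ne_eq, reduceCtorEq, not_false_eq_true, true_and,
    Sum.inr.injEq, Sum.inl.injEq, if_false, if_true, not_true_eq_false, false_and, and_false,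
    Finset.sum_const_zero, zero_add, add_zero, fst_count]
  all_goals simp

theorem lev_r (x : W) : x = r ↔ lev x = 0 := by
  rcases x with (_ | x | x | x | x) <;> simp [r, lev]

theorem lev_le (x : W) : lev x ≤ 4 := by
  rcases x with (_ | x | x | x | x) <;> simp [lev]

abbrev T : SimpleGraph W := ptree r par lev hl

theorem nsum (f : ℕ → ℝ) (x : W) :
    ∑ z ∈ T.neighborFinset x, f (lev z) =
      (if lev x = 0 then 0 else f (lev x - 1)) + ch (lev x) * f (lev x + 1) := by
  rw [ptree_sum, hch]
  simp only [lev_r]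

theorem ndeg (x : W) : (T.degree x : ℝ) = (if lev x = 0 then 0 else 1) + ch (lev x) := by
  rw [degree_eq_sum, nsum (fun _ => 1)]
  simp

noncomputable def p1 : ℕ → ℝ
  | 0 => 0
  | 1 => (1214948018875228809 / 31250000000000000)
  | 2 => (-297968812794228809 / 31250000000000000)
  | 3 => (517282437794228809 / 31250000000000000)
  | _ => (-486032437794228809 / 31250000000000000)

noncomputable def p2 : ℕ → ℝ
  | 0 => 0
  | 1 => (151841731612454271 / 3906250000000000)
  | 2 => (-37221416861954271 / 3906250000000000)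
  | 3 => (64635510611954271 / 3906250000000000)
  | _ => (-60729260611954271 / 3906250000000000)

noncomputable def q2 : Option W → ℝ
  | none => (455525194837362813 / 35226593750000000)
  | some x => p2 (lev x)

theorem edge_ind {V : Type} (G : SimpleGraph V) (P : G.edgeSet → Prop) (R : V → V → Prop)
    (h1 : ∀ x y, G.Adj x y → R x y ∨ R y x) (h2 : ∀ x y (h : G.Adj x y), R x y → P ⟨s(x, y), h⟩)
    (e : G.edgeSet) : P e := by
  obtain ⟨e, he⟩ := e
  induction e using Sym2.ind with
  | _ x y =>
    rcases h1 x y he with h | h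
    · exact h2 x y he h
    · have := h2 y x (SimpleGraph.Adj.symm he) h
      simpa only [Sym2.eq_swap] using this

theorem adjT (x y : W) (h : T.Adj x y) : lev x + 1 = lev y ∨ lev y + 1 = lev x := by
  rcases h with h | h
  · right; rw [← h.2]; exact hl _ h.1
  · left; rw [← h.2]; exact hl _ h.1

theorem low : (1004509 / 1000000 : ℝ) ≤ lamMax (ricci T) := by
  have hne : Nonempty T.edgeSet :=
    ⟨⟨s(Sum.inr (Sum.inl 0), r), (Or.inl ⟨by simp [r], rfl⟩ : T.Adj _ _)⟩⟩
  have key : ∀ e : T.edgeSet, 0 < pot T (fun x => p1 (lev x)) e ∧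
      (1004509 / 1000000 : ℝ) * pot T (fun x => p1 (lev x)) e ≤
        (ricci T *ᵥ pot T (fun x => p1 (lev x))) e := by
    refine edge_ind T _ (fun x y => lev x + 1 = lev y) adjT ?_
    intro x y h hxy
    rw [ricci_pot, nsum p1, nsum p1, ndeg, ndeg]
    show 0 < p1 (lev x) + p1 (lev y) ∧ _ * (p1 (lev x) + p1 (lev y)) ≤ _
    have := lev_le y
    rw [← hxy] at this ⊢
    generalize lev x = k at this ⊢
    have hk : k ≤ 3 := by omega
    interval_cases k <;> simp [p1, ch] <;> norm_num
  exact le_lamMax _ (ricci_herm T) _ _ (fun e => (key e).1) (fun e => (key e).2)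

theorem deg_some (x : W) : (((attach T r).degree (some x) : ℕ) : ℝ) = 1 + ch (lev x) := by
  rw [degree_eq_sum, attach_some T r x (fun _ => 1), nsum (fun _ => 1)]
  simp only [lev_r]
  split_ifs <;> simp

theorem deg_none : (((attach T r).degree none : ℕ) : ℝ) = 1 := by
  rw [degree_eq_sum, attach_none T r (fun _ => 1)]

theorem sum_some (x : W) : ∑ z ∈ (attach T r).neighborFinset (some x), q2 z =
    (if lev x = 0 then q2 none else p2 (lev x - 1)) + ch (lev x) * p2 (lev x + 1) := by
  rw [attach_some T r x q2]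
  show _ + ∑ z ∈ T.neighborFinset x, p2 (lev z) = _
  rw [nsum p2]
  simp only [lev_r]
  split_ifs <;> simp

theorem up : lamMax (ricci (attach T r)) ≤ (1004502 / 1000000 : ℝ) := by
  have key : ∀ e : (attach T r).edgeSet, 0 < pot (attach T r) q2 e ∧
      (ricci (attach T r) *ᵥ pot (attach T r) q2) e ≤
        (1004502 / 1000000 : ℝ) * pot (attach T r) q2 e := by
    refine edge_ind (attach T r) _
      (fun x y => (x = none ∧ y = some r) ∨ ∃ a b, x = some a ∧ y = some b ∧ lev a + 1 = lev b) ?_ ?_
    · rintro (_ | x) (_ | y) h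
      · exact absurd h (fun h => h)
      · exact Or.inl (Or.inl ⟨rfl, congrArg some h⟩)
      · exact Or.inr (Or.inl ⟨rfl, congrArg some h⟩)
      · rcases adjT x y h with h | h
        · exact Or.inl (Or.inr ⟨x, y, rfl, rfl, h⟩)
        · exact Or.inr (Or.inr ⟨y, x, rfl, rfl, h⟩)
    · rintro x y h (⟨rfl, rfl⟩ | ⟨x, y, rfl, rfl, hxy⟩)
      · rw [ricci_pot, attach_none, sum_some, deg_some, deg_none]
        show 0 < q2 none + q2 (some r) ∧ _ ≤ _ * (q2 none + q2 (some r))
        simp [q2, p2, ch, lev, r]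
        norm_num
      · rw [ricci_pot, sum_some, sum_some, deg_some, deg_some]
        show 0 < p2 (lev x) + p2 (lev y) ∧ _ ≤ _ * (p2 (lev x) + p2 (lev y))
        simp only [q2]
        have := lev_le y
        rw [← hxy] at this ⊢
        generalize lev x = k at this ⊢
        have hk : k ≤ 3 := by omega
        interval_cases k <;> simp [p2, ch] <;> norm_num
  exact lamMax_le _ _ _ (by norm_num) (fun e => (key e).1) (ricci_off _) (fun e => (key e).2)

theorem result :
    ¬ ∀ (V : Type) [Fintype V] [DecidableEq V] (G : SimpleGraph V) [DecidableRel G.Adj] (v : V),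
      G.IsTree → G.degree v = 3 → lamMax (ricci G) ≤ lamMax (ricci (attach G v)) := by
  intro h
  have hd : T.degree r = 3 := by
    have := ndeg r
    simp only [lev, r, ch, if_true, zero_add] at this
    exact_mod_cast this
  have := h W T r (ptree_tree r par lev hl) hd
  have := low
  have := up
  linarith

end Pool.Agent.Results.MP_1a9240_co.Counter
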